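import Pool.Agent.MP_88c4e5_co.H68.NoIdentity

namespace Pool.Agent.MP_88c4e5_co.H76

open Set H68

/-- functional of the point `(p, s)` of affine three-space -/
noncomputable def ptF (p : ℂ) (s : ℝ) : (ℂ × ℝ × ℝ) →ₗ[ℝ] ℝ where
  toFun w := p.re * w.1.re + p.im * w.1.im + s * w.2.1 + w.2.2
  map_add' u v := by simp; ring
  map_smul' c v := by simp; ring

/-- the half-space over the disc with centre `z` and squared radius `R` -/
noncomputable def disc (z : ℂ) (R : ℝ) : ℂ × ℝ × ℝ := (2 * z, -1, R - ‖z‖ ^ 2)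

theorem ptF_disc (p z : ℂ) (h R : ℝ) :
    ptF p (h + ‖p‖ ^ 2) (disc z R) = R - ‖p - z‖ ^ 2 - h := by
  simp only [ptF, disc, LinearMap.coe_mk, AddHom.coe_mk, Complex.sq_norm, Complex.normSq_apply]
  simp
  ring

theorem ptF_comb (p q : ℂ) (s t l : ℝ) (w : ℂ × ℝ × ℝ) :
    ptF (p + l * (p - q)) (s + l * (s - t)) w = (1 + l) * ptF p s w - l * ptF q t w := by
  simp only [ptF, LinearMap.coe_mk, AddHom.coe_mk]
  simp
  ring

theorem exists_hit (a u : ℂ) (r : ℝ) (ha : ‖a‖ < r) (hu : u ≠ 0) :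
    ∃ l : ℝ, 0 < l ∧ ‖a + l * u‖ = r := by
  have hu' : 0 < ‖u‖ := norm_pos_iff.2 hu
  have hr : 0 < r := (norm_nonneg _).trans_lt ha
  have hc : Continuous fun l : ℝ => ‖a + l * u‖ := by fun_prop
  have hM : 0 ≤ 2 * r / ‖u‖ := by positivity
  obtain ⟨l, hl, hl'⟩ := intermediate_value_Icc hM hc.continuousOn
    (show r ∈ Icc ‖a + ((0 : ℝ) : ℂ) * u‖ ‖a + ((2 * r / ‖u‖ : ℝ) : ℂ) * u‖ from ⟨by simpa using ha.le, by
      have h1 : ‖((2 * r / ‖u‖ : ℝ) : ℂ) * u‖ = 2 * r := by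
        rw [norm_mul, Complex.norm_real, Real.norm_of_nonneg hM]; field_simp
      have h2 := norm_sub_le (a + ((2 * r / ‖u‖ : ℝ) : ℂ) * u) a
      rw [add_sub_cancel_left, h1] at h2
      linarith⟩)
  refine ⟨l, lt_of_le_of_ne hl.1 fun h => ?_, hl'⟩
  rw [← h] at hl'
  simp at hl'
  linarith

/-- ordered pairs of nodes sharing a class of the given colour -/
abbrev Edge {N C : Type} (cl : N → Bool → C) (k : N → ℕ) : Type :=
  {g : N × N × Bool // cl g.1 g.2.2 = cl g.2.1 g.2.2 ∧ cl g.1 (!g.2.2) ≠ cl g.2.1 (!g.2.2) ∧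
    k g.2.1 < k g.1}

theorem exists_config {N C : Type} [Finite N] [Finite C] (col : C → Bool) (cl : N → Bool → C)
    (hcol : ∀ x κ, col (cl x κ) = κ) (z : C → ℂ) (r : C → ℝ) (hr : ∀ c, 0 < r c)
    (hsep : ∀ c c', col c = col c' → c ≠ c' → r c + r c' < ‖z c - z c'‖)
    (p : N → ℂ) (h : N → ℝ) (hh : ∀ x, 0 < h x)
    (hp : ∀ x κ, h x = r (cl x κ) ^ 2 - ‖p x - z (cl x κ)‖ ^ 2) (k : N → ℕ) :
    ∃ (f : N ⊕ Edge cl k → (ℂ × ℝ × ℝ) →ₗ[ℝ] ℝ) (b : ℂ × ℝ × ℝ) (D : C → ℂ × ℝ × ℝ)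
      (χ : Edge cl k → ℂ × ℝ × ℝ), (∀ e, f e b < 0) ∧
      (∀ x κ, 0 < f (.inl x) (D (cl x κ))) ∧
      (∀ x c, c ≠ cl x (col c) → f (.inl x) (D c) < 0) ∧
      (∀ g c, col c = g.1.2.2 → f (.inr g) (D c) < 0) ∧
      (∀ g, 0 < f (.inr g) (χ g)) ∧ (∀ g x, f (.inl x) (χ g) < 0) ∧
      (∀ g g', g.1.2.2 ≠ g'.1.2.2 → f (.inr g') (χ g) < 0) ∧
      ∀ g : Edge cl k, ∃ l : ℝ, 0 < l ∧
        ∀ w, (1 + l) * f (.inl g.1.1) w = f (.inr g) w + l * f (.inl g.1.2.1) w := by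
  classical
  have hin : ∀ x κ, ‖p x - z (cl x κ)‖ < r (cl x κ) := fun x κ => by
    have h1 := hp x κ
    have h2 := hh x
    exact lt_of_pow_lt_pow_left₀ 2 (hr _).le (by linarith)
  have hout : ∀ (a : ℂ) c c', col c = col c' → c ≠ c' → ‖a - z c‖ ≤ r c →
      r c' ^ 2 < ‖a - z c'‖ ^ 2 := fun a c c' h1 h2 h3 => by
    have h4 := hsep c c' h1 h2
    have h5 := norm_sub_le (a - z c') (a - z c)
    rw [show a - z c' - (a - z c) = z c - z c' by ring] at h5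
    exact pow_lt_pow_left₀ (by linarith) (hr _).le two_ne_zero
  let F : N → (ℂ × ℝ × ℝ) →ₗ[ℝ] ℝ := fun x => ptF (p x) (h x + ‖p x‖ ^ 2)
  let D : C → ℂ × ℝ × ℝ := fun c => disc (z c) (r c ^ 2)
  have hF0 : ∀ x κ, F x (D (cl x κ)) = 0 := fun x κ => by
    simp only [F, D, ptF_disc]; linarith [hp x κ]
  have hFneg : ∀ x c, c ≠ cl x (col c) → F x (D c) < 0 := fun x c hc => by
    simp only [F, D, ptF_disc]
    linarith [hout (p x) _ c (hcol _ _) hc.symm (hin x _).le, hh x]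
  have hl : ∀ g : Edge cl k, ∃ l : ℝ, 0 < l ∧
      ‖p g.1.1 - z (cl g.1.1 g.1.2.2) + l * (p g.1.1 - p g.1.2.1)‖ = r (cl g.1.1 g.1.2.2) := by
    rintro ⟨⟨x, y, κ⟩, h1, h2, h3⟩
    refine exists_hit _ _ _ (hin x κ) fun h4 => ?_
    have h5 := hout (p x) _ _ ((hcol _ _).trans (hcol _ _).symm) h2 (hin x _).le
    rw [sub_eq_zero.1 h4] at h5
    linarith [hp y (!κ), hh y]
  choose l hl0 hl using hl
  let q : Edge cl k → ℂ := fun g => p g.1.1 + l g * (p g.1.1 - p g.1.2.1)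
  have hq : ∀ g, ‖q g - z (cl g.1.1 g.1.2.2)‖ = r (cl g.1.1 g.1.2.2) := fun g => by
    rw [← hl g]; congr 1; simp only [q]; ring
  let G : Edge cl k → (ℂ × ℝ × ℝ) →ₗ[ℝ] ℝ := fun g => ptF (q g) (0 + ‖q g‖ ^ 2)
  have hG : ∀ g w, G g w = (1 + l g) * F g.1.1 w - l g * F g.1.2.1 w := by
    intro g w
    have h1 := ptF_comb (p g.1.1) (p g.1.2.1) (h g.1.1 + ‖p g.1.1‖ ^ 2)
      (h g.1.2.1 + ‖p g.1.2.1‖ ^ 2) (l g)
    set s := h g.1.1 + ‖p g.1.1‖ ^ 2 +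
      l g * (h g.1.1 + ‖p g.1.1‖ ^ 2 - (h g.1.2.1 + ‖p g.1.2.1‖ ^ 2)) with hs
    have h2 := h1 (D (cl g.1.1 g.1.2.2))
    have h3 := hF0 g.1.1 g.1.2.2
    have h4 := hF0 g.1.2.1 g.1.2.2
    rw [← g.2.1] at h4
    simp only [F] at h3 h4
    rw [h3, h4, show s = (s - ‖q g‖ ^ 2) + ‖q g‖ ^ 2 by ring] at h2
    change ptF (q g) _ (disc _ _) = _ at h2
    rw [ptF_disc, hq] at h2
    have h5 : 0 + ‖q g‖ ^ 2 = s := by linarith
    simp only [G, F]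
    rw [h5]
    exact h1 w
  have hGle : ∀ g c, col c = g.1.2.2 → G g (D c) ≤ 0 := fun g c hc => by
    simp only [G, D, ptF_disc]
    by_cases h1 : cl g.1.1 g.1.2.2 = c
    · rw [← h1, hq]; linarith
    · linarith [hout (q g) _ c ((hcol _ _).trans hc.symm) h1 (hq g).le]
  have hqne : ∀ g g' : Edge cl k, g.1.2.2 ≠ g'.1.2.2 → q g' - q g ≠ 0 := by
    intro g g' h1 h2
    have h3 := hGle g' (cl g.1.1 (!g.1.2.2)) (by
      rw [hcol]; revert h1; cases g.1.2.2 <;> cases g'.1.2.2 <;> simp)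
    have h4 : G g' = G g := by simp only [G, sub_eq_zero.1 h2]
    rw [h4, hG, hF0] at h3
    have h5 := hFneg g.1.2.1 (cl g.1.1 (!g.1.2.2)) (by rw [hcol]; exact g.2.2.1)
    have := mul_neg_of_pos_of_neg (hl0 g) h5
    linarith
  obtain ⟨R, hR0, hR⟩ := exists_eps (E := N ⊕ Edge cl k × Edge cl k)
    (Sum.elim h fun g => ‖q g.1 - q g.2‖ ^ 2) fun _ => -1
  obtain ⟨μ, hμ0, hμ⟩ := exists_eps (E := Option (Edge cl k))
    (fun g => g.elim 1 l) fun g => g.elim (-1) fun g => -(1 + l g)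
  have hμ1 : μ ≤ 1 := by have := hμ none one_pos; simp only [Option.elim] at this; linarith
  let d : N ⊕ Edge cl k → ℝ :=
    Sum.elim (fun x => μ ^ k x) fun g => (1 + l g) * μ ^ k g.1.1 - l g * μ ^ k g.1.2.1
  have hd : ∀ g, d (.inr g) < 0 := fun g => by
    have h1 := hμ (some g) (hl0 g)
    simp only [Option.elim] at h1
    have h2 : μ ^ k g.1.1 ≤ μ ^ (k g.1.2.1 + 1) := pow_le_pow_of_le_one hμ0.le hμ1 g.2.2.2
    have h3 : 0 < μ ^ k g.1.2.1 := pow_pos hμ0 _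
    have h4 := mul_le_mul_of_nonneg_left h2 (by linarith [hl0 g] : 0 ≤ 1 + l g)
    have h5 := mul_pos h1 h3
    simp only [d, Sum.elim_inr]
    rw [pow_succ] at h4
    nlinarith
  let χ : Edge cl k → ℂ × ℝ × ℝ := fun g => disc (q g) R
  let F₀ : N ⊕ Edge cl k → (ℂ × ℝ × ℝ) →ₗ[ℝ] ℝ := Sum.elim F G
  obtain ⟨η, hη0, hη⟩ := exists_eps (E := (N ⊕ Edge cl k) × (C ⊕ Edge cl k) × Bool)
    (fun i => sg i.2.2 * F₀ i.1 (Sum.elim D χ i.2.1)) fun i => sg i.2.2 * d i.1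
  let π : (ℂ × ℝ × ℝ) →ₗ[ℝ] ℝ := (LinearMap.fst ℝ ℝ ℝ).comp (LinearMap.snd ℝ ℂ (ℝ × ℝ))
  let f : N ⊕ Edge cl k → (ℂ × ℝ × ℝ) →ₗ[ℝ] ℝ := fun e => F₀ e - (η * d e) • π
  have hf : ∀ e w, f e w = F₀ e w - η * d e * w.2.1 := fun e w => by simp [f, π]
  have hfd : ∀ e z R, f e (disc z R) = F₀ e (disc z R) + η * d e := fun e z R => by
    rw [hf]; simp [disc]
  have hpos : ∀ e δ, 0 < F₀ e (Sum.elim D χ δ) → 0 < F₀ e (Sum.elim D χ δ) + η * d e :=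
    fun e δ h1 => by simpa [sg] using hη (e, δ, true) (by simpa [sg] using h1)
  have hneg : ∀ e δ, F₀ e (Sum.elim D χ δ) < 0 → F₀ e (Sum.elim D χ δ) + η * d e < 0 :=
    fun e δ h1 => by
      have := hη (e, δ, false) (by simpa [sg] using h1)
      simp only [sg, Bool.false_eq_true, if_false] at this
      linarith
  refine ⟨f, (0, 0, -1), D, χ, ?_, fun x κ => ?_, fun x c hc => ?_, fun g c hc => ?_, fun g => ?_,
    fun g x => ?_, fun g g' hg => ?_, fun g => ⟨l g, hl0 g, fun w => ?_⟩⟩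
  · rintro (x | g) <;> rw [hf] <;> simp [F₀, F, G, ptF]
  · rw [hfd]
    have h1 : F₀ (.inl x) (disc _ _) = 0 := hF0 x κ
    rw [h1, zero_add]
    exact mul_pos hη0 (pow_pos hμ0 _)
  · rw [hfd]; exact hneg (.inl x) (.inl c) (hFneg x c hc)
  · rw [hfd]
    have h1 : F₀ (.inr g) (disc _ _) ≤ 0 := hGle g c hc
    linarith [mul_neg_of_pos_of_neg hη0 (hd g)]
  · rw [hfd]
    refine hpos (.inr g) (.inr g) ?_
    simp only [F₀, G, χ, Sum.elim_inr, ptF_disc]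
    simpa using hR0
  · rw [hfd]
    refine hneg (.inl x) (.inr g) ?_
    simp only [F₀, F, χ, Sum.elim_inr, Sum.elim_inl, ptF_disc]
    have h1 := hR (.inl x) (hh x)
    simp only [Sum.elim_inl] at h1
    linarith [sq_nonneg ‖p x - q g‖]
  · rw [hfd]
    refine hneg (.inr g') (.inr g) ?_
    simp only [F₀, G, χ, Sum.elim_inr, ptF_disc]
    have h1 := hR (.inr (g', g)) (pow_pos (norm_pos_iff.2 (hqne g g' hg)) 2)
    simp only [Sum.elim_inr] at h1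
    linarith
  · simp only [hf, F₀, d, Sum.elim_inl, Sum.elim_inr, hG]
    ring

end Pool.Agent.MP_88c4e5_co.H76
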