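import Pool.Agent.MP_88c4e5_co.H76.Config

namespace Pool.Agent.MP_88c4e5_co.H76

open Set H68

/-- A configuration of crossing discs labelled by terms and closed under the Whitman steps
gives a counterexample in dimension four. -/
theorem counter_of_discs (d : ℕ) (hd : 4 ≤ d) {L : Type*} [Lattice L] (v : ℕ → L)
    {N C : Type} [Finite N] [Finite C] (col : C → Bool) (cl : N → Bool → C)
    (hcol : ∀ x κ, col (cl x κ) = κ) (z : C → ℂ) (r : C → ℝ) (hr : ∀ c, 0 < r c)
    (hsep : ∀ c c', col c = col c' → c ≠ c' → r c + r c' < ‖z c - z c'‖)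
    (p : N → ℂ) (h : N → ℝ) (hh : ∀ x, 0 < h x)
    (hp : ∀ x κ, h x = r (cl x κ) ^ 2 - ‖p x - z (cl x κ)‖ ^ 2) (lab : C → Term)
    (hne : ∀ x, ¬ (lab (cl x true)).eval v ≤ (lab (cl x false)).eval v)
    (hJ : ∀ x a, code a < code (lab (cl x true)) → ¬ a.eval v ≤ (lab (cl x false)).eval v →
      ∃ y, cl y false = cl x false ∧ lab (cl y true) = a)
    (hM : ∀ x a, code a < code (lab (cl x false)) → ¬ (lab (cl x true)).eval v ≤ a.eval v →
      ∃ y, cl y true = cl x true ∧ lab (cl y false) = a) (x₀ : N) :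
    ∃ (A : Arrangement d) (B : A.Region) (v' : ℕ → DM A B),
      ¬ (lab (cl x₀ true)).eval v' ≤ (lab (cl x₀ false)).eval v' := by
  classical
  let k : N → ℕ := fun x => code (lab (cl x true)) + code (lab (cl x false))
  obtain ⟨f, b, D, χ, hb, F1, F2, F3, F4, F5, F6, F7⟩ :=
    exists_config col cl hcol z r hr hsep p h hh hp k
  obtain ⟨A, B, ρ, hρ⟩ := exists_model d (W := ℂ × ℝ × ℝ)
    (by simpa [Module.finrank_prod] using hd) f b hb
  have hneg : ∀ e w, 0 < f e (-w) ↔ f e w < 0 := fun e w => by rw [map_neg, neg_pos]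
  have hbool : ∀ g : Edge cl k, g.1.2.2 ≠ true → g.1.2.2 = false := fun g => by simp
  have hnode : ∀ x c, 0 < f (.inl x) (D c) → c = cl x (col c) := fun x c h1 => by
    by_contra h2
    exact lt_asymm h1 (F2 x c h2)
  let X0 : DM A B := ⨆ g : {g : Edge cl k // g.1.2.2 = false}, ρ (χ g.1)
  let X1 : DM A B := ⨅ g : {g : Edge cl k // g.1.2.2 = true}, ρ (-χ g.1)
  have hX0 : ∀ w, X0 ≤ ρ w → ∀ g : Edge cl k, g.1.2.2 = false → 0 < f (.inr g) w :=
    fun w hw g hg => hρ.sub ((le_iSup (fun g : {g : Edge cl k // g.1.2.2 = false} => ρ (χ g.1))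
      ⟨g, hg⟩).trans hw) (F4 g)
  have hX1 : ∀ u, ρ u ≤ X1 → ∀ g : Edge cl k, g.1.2.2 = true → ¬ 0 < f (.inr g) u :=
    fun u hu g hg h1 => lt_asymm (F4 g) ((hneg _ _).1 (hρ.sub (hu.trans
      (iInf_le (fun g : {g : Edge cl k // g.1.2.2 = true} => ρ (-χ g.1)) ⟨g, hg⟩)) h1))
  have hle1 : ∀ u, (∀ g : Edge cl k, g.1.2.2 = true → ¬ 0 < f (.inr g) u) → ρ u ≤ X1 := by
    intro u hu
    refine le_iInf fun g => hρ.rho_le_rho.2 ?_
    rintro (x | g') he
    · exact (hneg _ _).2 (F5 _ _)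
    · exact (hneg _ _).2 (F6 _ _ fun h1 => hu g' (h1 ▸ g.2) he)
  have hle0 : ∀ w, (∀ g : Edge cl k, g.1.2.2 = false → 0 < f (.inr g) w) → X0 ≤ ρ w := by
    intro w hw
    refine iSup_le fun g => hρ.rho_le_rho.2 ?_
    rintro (x | g') he
    · exact absurd he (lt_asymm (F5 _ _))
    · by_cases h1 : g.1.1.2.2 = g'.1.2.2
      · exact hw g' (h1 ▸ g.2)
      · exact absurd he (lt_asymm (F6 _ _ h1))
  have hlo1 : ∀ c, col c = true → ρ (D c) ≤ X1 := fun c hc =>
    hle1 _ fun g hg => lt_asymm (F3 g c (hc.trans hg.symm))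
  have hup0 : ∀ c, col c = false → X0 ≤ ρ (-D c) := fun c hc =>
    hle0 _ fun g hg => (hneg _ _).2 (F3 g c (hc.trans hg.symm))
  have h01 : X0 ≤ X1 := iSup_le fun g => hle1 _ fun g' hg' =>
    lt_asymm (F6 _ _ (by rw [g.2, hg']; simp))
  let v' : ℕ → DM A B := fun n => X0 ⊔ ⨆ c : {c : C // col c = true ∧ lab c = .var n}, ρ (D c.1)
  have hbd : ∀ a : Term, X0 ≤ a.eval v' ∧ a.eval v' ≤ X1 := by
    intro a
    induction a with
    | var n => exact ⟨le_sup_left, sup_le h01 (iSup_le fun c => hlo1 _ c.2.1)⟩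
    | sup a b iha ihb => exact ⟨iha.1.trans le_sup_left, sup_le iha.2 ihb.2⟩
    | inf a b iha ihb => exact ⟨le_inf iha.1 ihb.1, inf_le_left.trans iha.2⟩
  have stepA : ∀ c, col c = true → ∀ Y, X0 ≤ Y →
      (∀ b : Term, ¬ (lab c).eval v ≤ b.eval v → ∃ a', code a' < code (lab c) ∧
        ¬ a'.eval v ≤ b.eval v ∧ ∀ c', col c' = true → lab c' = a' → ρ (D c') ≤ Y) →
      ρ (D c) ≤ Y := by
    intro c hc Y hY H
    refine hρ.rho_le.2 fun w hw => ?_
    rintro (x | g) he
    · have h1 := hnode x c he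
      rw [hc] at h1
      subst h1
      obtain ⟨a', h2, h3, h4⟩ := H _ (hne x)
      obtain ⟨y, h5, h6⟩ := hJ x a' h2 h3
      let g : Edge cl k := ⟨(x, y, false), h5.symm, fun h7 => by
        simp only [Bool.not_false] at h7; rw [h7, h6] at h2; exact lt_irrefl _ h2, by
        simp only [k, h5, h6]; omega⟩
      obtain ⟨l, hl, h7⟩ := F7 g
      have h8 : 0 < f (.inl y) w := hρ.sub ((h4 _ (hcol y true) h6).trans hw) (F1 y true)
      have h9 := hX0 w (hY.trans hw) g rfl
      have h10 : 0 < (1 + l) * f (.inl x) w := by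
        rw [h7 w]; exact add_pos h9 (mul_pos hl h8)
      exact (mul_pos_iff_of_pos_left (by linarith)).1 h10
    · exact hX0 w (hY.trans hw) g (hbool g fun hg => lt_asymm he (F3 g c (hc.trans hg.symm)))
  have stepB : ∀ c, col c = false → ∀ X, X ≤ X1 →
      (∀ a : Term, ¬ a.eval v ≤ (lab c).eval v → ∃ b', code b' < code (lab c) ∧
        ¬ a.eval v ≤ b'.eval v ∧ ∀ c', col c' = false → lab c' = b' → X ≤ ρ (-D c')) →
      X ≤ ρ (-D c) := by
    intro c hc X hX H
    refine hρ.le_rho.2 fun u hu => ?_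
    rintro (x | g) he
    · refine (hneg _ _).2 (F2 x c fun h1 => ?_)
      rw [hc] at h1
      subst h1
      obtain ⟨b', h2, h3, h4⟩ := H _ (hne x)
      obtain ⟨y, h5, h6⟩ := hM x b' h2 h3
      let g : Edge cl k := ⟨(x, y, true), h5.symm, fun h7 => by
        simp only [Bool.not_true] at h7; rw [h7, h6] at h2; exact lt_irrefl _ h2, by
        simp only [k, h5, h6]; omega⟩
      obtain ⟨l, hl, h7⟩ := F7 g
      have h8 : ¬ 0 < f (.inl y) u := fun h8 =>
        lt_asymm (F1 y false) ((hneg _ _).1 (hρ.sub (hu.trans (h4 _ (hcol y false) h6)) h8))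
      have h9 := hX1 u (hu.trans hX) g rfl
      have h10 : 0 < (1 + l) * f (.inl x) u := mul_pos (by linarith) he
      rw [h7 u] at h10
      have := mul_nonpos_of_nonneg_of_nonpos hl.le (not_lt.1 h8)
      linarith [not_lt.1 h9]
    · exact (hneg _ _).2 (F3 g c (hc.trans (hbool g fun hg => hX1 u (hu.trans hX) g hg he).symm))
  have claimA : ∀ a c, col c = true → lab c = a → ρ (D c) ≤ a.eval v' := by
    intro a
    induction a with
    | var n =>
      exact fun c h1 h2 => (le_iSup (fun c : {c : C // col c = true ∧ lab c = .var n} =>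
        ρ (D c.1)) ⟨c, h1, h2⟩).trans le_sup_right
    | sup a b iha ihb =>
      intro c hc hab
      refine stepA c hc _ (hbd _).1 fun t ht => ?_
      rw [hab] at ht ⊢
      by_cases h3 : a.eval v ≤ t.eval v
      · exact ⟨b, code_sup_right a b, fun h4 => ht (sup_le h3 h4),
          fun c' h5 h6 => (ihb c' h5 h6).trans le_sup_right⟩
      · exact ⟨a, code_sup_left a b, h3, fun c' h5 h6 => (iha c' h5 h6).trans le_sup_left⟩
    | inf a b iha ihb =>
      intro c hc hab
      refine le_inf (stepA c hc _ (hbd _).1 fun t ht => ?_) (stepA c hc _ (hbd _).1 fun t ht => ?_)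
      · rw [hab] at ht ⊢
        exact ⟨a, code_inf_left a b, fun h4 => ht (inf_le_left.trans h4), iha⟩
      · rw [hab] at ht ⊢
        exact ⟨b, code_inf_right a b, fun h4 => ht (inf_le_right.trans h4), ihb⟩
  have claimB : ∀ b c, col c = false → lab c = b → b.eval v' ≤ ρ (-D c) := by
    intro b
    induction b with
    | var n =>
      intro c hc hb
      refine sup_le (hup0 c hc) (iSup_le fun c' => hρ.rho_le_rho.2 ?_)
      rintro (x | g) he
      · refine (hneg _ _).2 (F2 x c fun h1 => hne x ?_)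
        have h2 := hnode x _ he
        rw [hc] at h1
        rw [c'.2.1] at h2
        rw [← h1, ← h2, hb, c'.2.2]
      · exact (hneg _ _).2 (F3 g c (hc.trans (hbool g fun hg =>
          lt_asymm he (F3 g _ (c'.2.1.trans hg.symm))).symm))
    | sup a b iha ihb =>
      intro c hc hab
      refine sup_le (stepB c hc _ (hbd _).2 fun t ht => ?_) (stepB c hc _ (hbd _).2 fun t ht => ?_)
      · rw [hab] at ht ⊢
        exact ⟨a, code_sup_left a b, fun h4 => ht (h4.trans le_sup_left), iha⟩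
      · rw [hab] at ht ⊢
        exact ⟨b, code_sup_right a b, fun h4 => ht (h4.trans le_sup_right), ihb⟩
    | inf a b iha ihb =>
      intro c hc hab
      refine stepB c hc _ (hbd _).2 fun t ht => ?_
      rw [hab] at ht ⊢
      by_cases h3 : t.eval v ≤ a.eval v
      · exact ⟨b, code_inf_right a b, fun h4 => ht (le_inf h3 h4),
          fun c' h5 h6 => inf_le_right.trans (ihb c' h5 h6)⟩
      · exact ⟨a, code_inf_left a b, h3, fun c' h5 h6 => inf_le_left.trans (iha c' h5 h6)⟩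
  refine ⟨A, B, v', fun hle => ?_⟩
  have h1 := hρ.sub (((claimA _ _ (hcol x₀ true) rfl).trans hle).trans
    (claimB _ _ (hcol x₀ false) rfl)) (F1 x₀ true)
  exact lt_asymm (F1 x₀ false) ((hneg _ _).1 h1)

end Pool.Agent.MP_88c4e5_co.H76
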