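import Pool.Agent.MP_88c4e5_co.H76.Plane

namespace Pool.Agent.MP_88c4e5_co.H76

open Set H68

section core
variable {D W E : Type} [Lattice D] [AddCommGroup W] [Module ℝ W] [Finite E]
  {f : E → W →ₗ[ℝ] ℝ} {b : W} {ρ : W → D}

theorem low_core [FiniteDimensional ℝ W] (hW : Module.finrank ℝ W ≤ 3)
    (hb : ∀ e, f e b < 0) (h : IsModel ρ fun w => {e | 0 < f e w})
    (x y z : Fin 5 → D) (t P Q : D) (hP : ∀ i, P ≤ x i ⊓ (y i ⊔ z i) ⊔ t) (ht : t ≤ Q)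
    (hc : ∀ i j k, i ≠ j → i ≠ k → j ≠ k →
      x i ⊓ (y i ⊔ z i) ⊓ (x j ⊓ (y j ⊔ z j) ⊔ x k ⊓ (y k ⊔ z k)) ≤ Q)
    (hr : ∀ i, x i ⊓ y i ⊔ x i ⊓ z i ≤ Q) : P ≤ Q := by
  classical
  refine (h _ _).2 fun v w hv hw => ?_
  by_contra hcon
  have hu : ∀ i, ∃ u, ρ u ≤ x i ⊓ (y i ⊔ z i) ∧ ∃ g, 0 < f g u ∧ ¬ 0 < f g w := by
    intro i
    have h1 : ¬ x i ⊓ (y i ⊔ z i) ≤ ρ w := fun h1 =>
      hcon (h.sub ((hv.trans (hP i)).trans (sup_le h1 (ht.trans hw))))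
    rw [h.le_rho] at h1
    push Not at h1
    obtain ⟨u, hu1, hu2⟩ := h1
    obtain ⟨e, he1, he2⟩ := Set.not_subset.1 hu2
    exact ⟨u, hu1, e, he1, he2⟩
  choose u hu1 hu2 using hu
  have hvert : ∀ i e, Vert f e → 0 < f e (u i) → 0 < f e w := by
    rintro i e ⟨χ, s, hχ, hs, h1, h2⟩ he
    have h3 : ρ χ ≤ x i ⊓ (y i ⊔ z i) := (h.rho_le_rho.2 (h1 _ he)).trans (hu1 i)
    have h4 : ∀ Y : D, ¬ ρ χ ≤ Y → Y ≤ ρ s := fun Y hY => by
      rw [h.rho_le] at hY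
      push Not at hY
      obtain ⟨w', hw1, hw2⟩ := hY
      exact hw1.trans (h.rho_le_rho.2 (h2 w' fun h5 => hw2 (h1 w' h5)))
    have h5 : ρ χ ≤ Q := by
      by_cases hy : ρ χ ≤ y i
      · exact ((le_inf (h3.trans inf_le_left) hy).trans le_sup_left).trans (hr i)
      by_cases hz : ρ χ ≤ z i
      · exact ((le_inf (h3.trans inf_le_left) hz).trans le_sup_right).trans (hr i)
      exact absurd (h.sub ((h3.trans inf_le_right).trans (sup_le (h4 _ hy) (h4 _ hz))) hχ) hs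
    exact h.sub (h5.trans hw) hχ
  obtain ⟨v', v₁, v₂, hvv⟩ := two_neighbours hW hb w u hvert hu2
  obtain ⟨s, hs⟩ := Fintype.exists_lt_card_fiber_of_mul_lt_card
    (fun i : Fin 5 => decide (0 < f v₁ (u i))) (n := 2) (by simp)
  obtain ⟨i, hi, j, hj, k, hk, hij, hik, hjk⟩ := Finset.two_lt_card.1 hs
  simp only [Finset.mem_filter, Finset.mem_univ, true_and] at hi hj hk
  obtain ⟨v₀, hv₀⟩ : ∃ v₀, ∀ l, decide (0 < f v₁ (u l)) = s → 0 < f v₀ (u l) := by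
    cases s
    · exact ⟨v₂, fun l hl => (hvv l).2.resolve_left (by simpa using hl)⟩
    · exact ⟨v₁, fun l hl => by simpa using hl⟩
  have hesc : ∀ i j k, i ≠ j → i ≠ k → j ≠ k → ∃ w' g, 0 < f g (u i) ∧ ¬ 0 < f g w' ∧
      (∀ e, 0 < f e (u j) → 0 < f e w') ∧ ∀ e, 0 < f e (u k) → 0 < f e w' := by
    intro i j k hij hik hjk
    have h1 : ¬ ρ (u i) ≤ ρ (u j) ⊔ ρ (u k) := fun h1 => by
      obtain ⟨g, hg1, hg2⟩ := hu2 i
      exact hg2 (h.sub (((le_inf (hu1 i) (h1.trans (sup_le_sup (hu1 j) (hu1 k)))).trans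
        (hc i j k hij hik hjk)).trans hw) hg1)
    rw [h.rho_le] at h1
    push Not at h1
    obtain ⟨w', hw1, hw2⟩ := h1
    obtain ⟨g, hg1, hg2⟩ := Set.not_subset.1 hw2
    exact ⟨w', g, hg1, hg2, fun e he => h.sub (le_sup_left.trans hw1) he,
      fun e he => h.sub (le_sup_right.trans hw1) he⟩
  obtain ⟨w₀, g₀, a1, a2, a3, a4⟩ := hesc i j k hij hik hjk
  obtain ⟨w₁, g₁, b1, b2, b3, b4⟩ := hesc j i k hij.symm hjk hik
  obtain ⟨w₂, g₂, c1, c2, c3, c4⟩ := hesc k i j hik.symm hjk.symm hij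
  refine three_planes hW hb ![u i, u j, u k] ![w₀, w₁, w₂] ![g₀, g₁, g₂] v₀ v' ?_ ?_ ?_ ?_ ?_
  · intro l; fin_cases l
    exacts [hv₀ i hi, hv₀ j hj, hv₀ k hk]
  · intro l; fin_cases l
    exacts [(hvv i).1, (hvv j).1, (hvv k).1]
  · intro l; fin_cases l
    exacts [a1, b1, c1]
  · intro l; fin_cases l
    exacts [a2, b2, c2]
  · intro l m hlm
    fin_cases l <;> fin_cases m
    exacts [absurd rfl hlm, a3, a4, b3, absurd rfl hlm, b4, c3, c4, absurd rfl hlm]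

end core

/-- join of a base term and a list of terms -/
def joinList (base : Term) (l : List Term) : Term := l.foldr Term.sup base

theorem joinList_le {L : Type*} [Lattice L] (v : ℕ → L) (base : Term) (l : List Term) (u : L) :
    (joinList base l).eval v ≤ u ↔ base.eval v ≤ u ∧ ∀ t ∈ l, t.eval v ≤ u := by
  induction l with
  | nil => simp [joinList]
  | cons a l ih =>
    have : joinList base (a :: l) = .sup a (joinList base l) := rfl
    rw [this, Term.eval, sup_le_iff, ih]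
    simp only [List.mem_cons, forall_eq_or_imp]
    tauto

/-- `x_i ⊓ (y_i ⊔ z_i)` -/
def cT (i : Fin 5) : Term := .inf (.var (3 * i)) (.sup (.var (3 * i + 1)) (.var (3 * i + 2)))

/-- `x_i ⊓ y_i ⊔ x_i ⊓ z_i` -/
def rT (i : Fin 5) : Term :=
  .sup (.inf (.var (3 * i)) (.var (3 * i + 1))) (.inf (.var (3 * i)) (.var (3 * i + 2)))

/-- left side of the identity -/
def pT : Term :=
  meetList (.sup (cT 0) (.var 15)) ((List.finRange 5).map fun i => .sup (cT i) (.var 15))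

/-- right side of the identity -/
def qT : Term :=
  joinList (.var 15) ((List.finRange 5).map rT ++
    (List.finRange 5).flatMap fun i => (List.finRange 5).flatMap fun j =>
      ((List.finRange 5).filter fun k => i ≠ j ∧ i ≠ k ∧ j ≠ k).map fun k =>
        .inf (cT i) (.sup (cT j) (cT k)))

theorem le_pT {L : Type*} [Lattice L] (v : ℕ → L) (u : L) :
    u ≤ pT.eval v ↔ ∀ i, u ≤ (cT i).eval v ⊔ v 15 := by
  simp only [pT, le_meetList, Term.eval, List.mem_map, List.mem_finRange, true_and,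
    forall_exists_index, forall_apply_eq_imp_iff]
  exact ⟨fun h => h.2, fun h => ⟨h 0, h⟩⟩

theorem qT_le {L : Type*} [Lattice L] (v : ℕ → L) (u : L) :
    qT.eval v ≤ u ↔ v 15 ≤ u ∧ (∀ i, (rT i).eval v ≤ u) ∧ ∀ i j k, i ≠ j → i ≠ k → j ≠ k →
      (cT i).eval v ⊓ ((cT j).eval v ⊔ (cT k).eval v) ≤ u := by
  simp only [qT, joinList_le, Term.eval, List.mem_append, List.mem_map, List.mem_finRange,
    true_and, List.mem_flatMap, List.mem_filter, decide_eq_true_eq]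
  refine and_congr_right fun _ => ⟨fun h => ⟨fun i => h _ (Or.inl ⟨i, rfl⟩),
    fun i j k h1 h2 h3 => h _ (Or.inr ⟨i, j, k, ⟨h1, h2, h3⟩, rfl⟩)⟩, ?_⟩
  rintro ⟨h1, h2⟩ _ (⟨i, rfl⟩ | ⟨i, j, k, ⟨h3, h4, h5⟩, rfl⟩)
  · exact h1 i
  · exact h2 i j k h3 h4 h5

theorem low_holds {d : ℕ} (hd : d ≤ 3) (A : Arrangement d) (B : A.Region) :
    Holds (DM A B) (.sup pT qT) qT := by
  intro v
  obtain ⟨f, b, ρ, hb, hρ⟩ := model_of_arrangement A B
  simp only [Term.eval, sup_eq_right]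
  obtain ⟨h1, h2, h3⟩ := (qT_le v _).1 le_rfl
  exact low_core (by rwa [finrank_euclideanSpace_fin]) hb hρ (fun i => v (3 * i))
    (fun i => v (3 * i + 1)) (fun i => v (3 * i + 2)) (v 15) _ _ ((le_pT v _).1 le_rfl) h1 h3 h2

universe u

/-- closed sets of a small closure system -/
def Cs : Type u :=
  {s : Set (ULift.{u} ℕ) // ∀ i : Fin 5,
    (⟨3 * i + 1⟩ ∈ s → ⟨3 * i + 2⟩ ∈ s → ⟨3 * i⟩ ∈ s) ∧ (⟨15⟩ ∈ s → ⟨3 * i⟩ ∈ s → ⟨16⟩ ∈ s)}

instance : PartialOrder Cs.{u} := Subtype.partialOrder _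

instance : InfSet Cs.{u} :=
  ⟨fun S => ⟨{n | ∀ s ∈ S, n ∈ s.1}, fun i =>
    ⟨fun h1 h2 s hs => (s.2 i).1 (h1 s hs) (h2 s hs),
      fun h1 h2 s hs => (s.2 i).2 (h1 s hs) (h2 s hs)⟩⟩⟩

/-- the lattice of closed sets -/
@[reducible] def Cs.lattice : CompleteLattice Cs.{u} :=
  completeLatticeOfInf Cs fun _ =>
    ⟨fun s hs _ hn => hn s hs, fun _ ht _ hn _ hs => ht hs hn⟩

theorem low_fails : ∃ (L : Type u) (_ : Lattice L), ¬ Holds L (.sup pT qT) qT := by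
  let _ := Cs.lattice.{u}
  refine ⟨Cs.{u}, inferInstance, fun H => ?_⟩
  let pr : ℕ → ℕ → Set (ULift.{u} ℕ) := fun m n => {k | k.down = m ∨ k.down = n}
  let v : ℕ → Cs.{u} := fun n => ⟨pr n n, fun i => by
    simp only [pr, mem_ofPred_eq]; omega⟩
  have hle : ∀ s t : Cs.{u}, s ≤ t ↔ ∀ k, k ∈ s.1 → k ∈ t.1 := fun _ _ => Iff.rfl
  have hv : ∀ n (s : Cs.{u}), v n ≤ s ↔ ⟨n⟩ ∈ s.1 := fun n s =>
    ⟨fun h => h (Or.inl rfl), fun h k hk => by
      have : k = ⟨n⟩ := ULift.ext _ _ (hk.elim id id)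
      rwa [this]⟩
  have hc : ∀ i : Fin 5, (cT i).eval v = v (3 * i) := fun i =>
    inf_eq_left.2 ((hv _ _).2 (((v (3 * i + 1) ⊔ v (3 * i + 2)).2 i).1 ((hv _ _).1 le_sup_left)
      ((hv _ _).1 le_sup_right)))
  have hmeet : ∀ (s t r : Cs.{u}), (∀ k, k ∈ s.1 → k ∉ t.1) → s ⊓ t ≤ r := fun s t r h k hk =>
    absurd ((hle _ _).1 inf_le_right k hk) (h k ((hle _ _).1 inf_le_left k hk))
  have h1 : v 16 ≤ pT.eval v := (le_pT v _).2 fun i => by
    rw [hc]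
    exact (hv _ _).2 (((v (3 * i) ⊔ v 15).2 i).2 ((hv _ _).1 le_sup_right)
      ((hv _ _).1 le_sup_left))
  have h2 : qT.eval v ≤ v 15 := (qT_le v _).2 ⟨le_rfl, fun i => sup_le
      (hmeet _ _ _ fun k => by simp only [Term.eval, v, pr, mem_ofPred_eq]; omega)
      (hmeet _ _ _ fun k => by simp only [Term.eval, v, pr, mem_ofPred_eq]; omega),
    fun i j k hij hik hjk => by
      rw [hc, hc, hc]
      let s : Cs.{u} := ⟨pr (3 * j) (3 * k), fun i => by simp only [pr, mem_ofPred_eq]; omega⟩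
      refine (inf_le_inf_left _ (sup_le ((hv _ s).2 (Or.inl rfl)) ((hv _ s).2 (Or.inr rfl)))).trans
        (hmeet _ _ _ fun n => ?_)
      simp only [v, s, pr, mem_ofPred_eq]
      omega⟩
  have h3 := H v
  simp only [Term.eval, sup_eq_right] at h3
  have h4 := (hv _ _).1 ((h1.trans h3).trans h2)
  simp [v, pr] at h4

end Pool.Agent.MP_88c4e5_co.H76
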