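import Pool.Agent.MP_88c4e5_co.H68.FixedDim

namespace Pool.Agent.MP_88c4e5_co.H76

open Set H68

section linear
variable {W E : Type} [AddCommGroup W] [Module ℝ W] {f : E → W →ₗ[ℝ] ℝ} {b : W}

/-- A vertex of the hull of the normalised functionals, in order-theoretic form. -/
def Vert (f : E → W →ₗ[ℝ] ℝ) (e : E) : Prop :=
  ∃ χ t : W, 0 < f e χ ∧ ¬ 0 < f e t ∧ (∀ w, 0 < f e w → ∀ e', 0 < f e' χ → 0 < f e' w) ∧
    ∀ w, ¬ 0 < f e w → ∀ e', 0 < f e' w → 0 < f e' t

theorem exists_vert [Finite E] (hb : ∀ e, f e b < 0) {t : W} {g : E} (hg : 0 < f g t) :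
    ∃ e, Vert f e ∧ 0 < f e t := by
  classical
  obtain ⟨χ, ⟨hne, hsub⟩, hmin⟩ := exists_minimalFor_of_wellFoundedLT
    (fun χ : W => {e | 0 < f e χ}.Nonempty ∧ {e | 0 < f e χ} ⊆ {e | 0 < f e t})
    (fun χ => {e | 0 < f e χ}) ⟨t, ⟨g, hg⟩, subset_rfl⟩
  obtain ⟨e₀, he₀, hmax⟩ := Set.exists_max_image {e | 0 < f e χ}
    (fun e => f e χ / (-f e b)) (Set.toFinite _) hne
  have he₀' : 0 < f e₀ χ := he₀
  set s := f e₀ χ / (-f e₀ b) with hs
  have hs0 : 0 < s := div_pos he₀' (by linarith [hb e₀])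
  have hval : ∀ e, f e (χ + s • b) = f e χ + s * f e b := fun e => by
    rw [map_add, map_smul, smul_eq_mul]
  have h0 : f e₀ (χ + s • b) = 0 := by
    have := (hb e₀).ne
    rw [hval, hs]; field_simp; ring
  have hneg : ∀ e, ¬ 0 < f e χ → f e (χ + s • b) < 0 := fun e he => by
    rw [hval]
    have := mul_neg_of_pos_of_neg hs0 (hb e)
    linarith [not_lt.1 he]
  have hle : ∀ e, f e (χ + s • b) ≤ 0 := fun e => by
    by_cases he : 0 < f e χ
    · have h1 := hmax e he
      rw [div_le_iff₀ (by linarith [hb e])] at h1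
      rw [hval]; linarith
    · exact (hneg e he).le
  have key : ∀ w e, f e (χ + s • b) = 0 → 0 < f e w → ∀ e', 0 < f e' χ → 0 < f e' w := by
    intro w e he hw e' he'
    obtain ⟨ε, hε, hε'⟩ := exists_eps (fun e => -f e (χ + s • b)) (fun e => -f e w)
    have hval2 : ∀ e, f e (χ + s • b + ε • w) = f e (χ + s • b) + ε * f e w := fun e => by
      rw [map_add, map_smul, smul_eq_mul]
    have h1 : {e | 0 < f e (χ + s • b + ε • w)} ⊆ {e | 0 < f e χ} := by
      intro a ha
      by_contra hcon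
      have h2 := hε' a (by linarith [hneg a hcon])
      rw [mem_ofPred_eq, hval2] at ha
      linarith
    have h2 := hmin (j := χ + s • b + ε • w) ⟨⟨e, by
      rw [mem_ofPred_eq, hval2, he, zero_add]; exact mul_pos hε hw⟩, h1.trans hsub⟩ h1
    have h3 := h2 he'
    rw [mem_ofPred_eq, hval2] at h3
    have h4 := hle e'
    exact (mul_pos_iff_of_pos_left hε).1 (by linarith)
  refine ⟨e₀, ⟨χ, -(χ + s • b), he₀', by rw [map_neg, h0]; simp, fun w hw => key w e₀ h0 hw,
    fun w hw e' he' => ?_⟩, hsub he₀⟩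
  rw [map_neg]
  rcases (hle e').eq_or_lt with h1 | h1
  · exact absurd (key w e' h1 he' e₀ he₀') hw
  · linarith

theorem dep4 {V : Type} [AddCommGroup V] [Module ℝ V] [FiniteDimensional ℝ V]
    (hV : Module.finrank ℝ V ≤ 3) (a₀ a₁ a₂ a₃ : V) :
    ∃ c₀ c₁ c₂ c₃ : ℝ, 0 ≤ c₀ ∧ (c₀ ≠ 0 ∨ c₁ ≠ 0 ∨ c₂ ≠ 0 ∨ c₃ ≠ 0) ∧
      c₀ • a₀ + c₁ • a₁ + c₂ • a₂ + c₃ • a₃ = 0 := by
  have hdep : ¬ LinearIndependent ℝ ![a₀, a₁, a₂, a₃] := fun hli => by
    have := hli.fintype_card_le_finrank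
    rw [Fintype.card_fin] at this
    omega
  obtain ⟨g, hg, k, hk⟩ := Fintype.not_linearIndependent_iff.1 hdep
  rw [Fin.sum_univ_four] at hg
  simp only [Matrix.cons_val_zero, Matrix.cons_val_one, Matrix.cons_val] at hg
  have hne : g 0 ≠ 0 ∨ g 1 ≠ 0 ∨ g 2 ≠ 0 ∨ g 3 ≠ 0 := by
    fin_cases k <;> simp_all
  rcases le_total 0 (g 0) with h | h
  · exact ⟨g 0, g 1, g 2, g 3, h, hne, hg⟩
  · refine ⟨-g 0, -g 1, -g 2, -g 3, by linarith, by simpa using hne, ?_⟩
    rw [← neg_eq_zero, ← hg]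
    simp only [neg_smul]
    abel

/-- Functionals vanishing at a nonzero vector have two extreme members. -/
theorem two_extremes [FiniteDimensional ℝ W] (hW : Module.finrank ℝ W ≤ 3) {K : Type} [Finite K]
    [Nonempty K] (m : K → W →ₗ[ℝ] ℝ) {w : W} (hw : w ≠ 0) (hmw : ∀ k, m k w = 0)
    (hmb : ∀ k, m k b < 0) :
    ∃ k₁ k₂, ∀ u k, 0 < m k u → 0 < m k₁ u ∨ 0 < m k₂ u := by
  have hpos : ∀ k u, 0 < m k u / (-m k b) ↔ 0 < m k u := fun k u =>
    div_pos_iff_of_pos_right (by linarith [hmb k])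
  by_cases h : ∃ y k k', m k y / (-m k b) ≠ m k' y / (-m k' b)
  · obtain ⟨y, j, j', hy⟩ := h
    obtain ⟨k₁, hk₁⟩ := Finite.exists_min fun k => m k y / (-m k b)
    obtain ⟨k₂, hk₂⟩ := Finite.exists_max fun k => m k y / (-m k b)
    refine ⟨k₁, k₂, fun u k hu => ?_⟩
    obtain ⟨c₀, c₁, c₂, c₃, h0, hne, hc⟩ := dep4 hW u y b w
    have hev : ∀ k, c₀ * (m k u / (-m k b)) + c₁ * (m k y / (-m k b)) = c₂ := fun k => by
      have h1 := congrArg (m k) hc
      simp only [map_add, map_smul, smul_eq_mul, hmw, mul_zero, add_zero, map_zero] at h1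
      have h2 := (hmb k).ne
      field_simp
      linarith
    have hc0 : 0 < c₀ := by
      refine lt_of_le_of_ne h0 fun h1 => ?_
      have h2 := hev j
      have h3 := hev j'
      rw [← h1, zero_mul, zero_add] at h2 h3
      have h4 : c₁ = 0 := by
        by_contra h4
        exact hy (mul_left_cancel₀ h4 (h2.trans h3.symm))
      have h5 : c₂ = 0 := by rw [← h2, h4, zero_mul]
      rw [← h1, h4, h5] at hc
      simp only [zero_smul, zero_add, smul_eq_zero, hw, or_false] at hc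
      rcases hne with h6 | h6 | h6 | h6
      · exact h6 h1.symm
      · exact h6 h4
      · exact h6 h5
      · exact h6 hc
    rw [← hpos] at hu
    rw [← hpos, ← hpos]
    have e0 := hev k
    have e1 := hev k₁
    have e2 := hev k₂
    have a1 := hk₁ k
    have a2 := hk₂ k
    rcases le_total 0 c₁ with h1 | h1
    · left
      have := mul_le_mul_of_nonneg_left a1 h1
      have := mul_pos hc0 hu
      exact (mul_pos_iff_of_pos_left hc0).1 (by linarith)
    · right
      have := mul_le_mul_of_nonpos_left a2 h1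
      have := mul_pos hc0 hu
      exact (mul_pos_iff_of_pos_left hc0).1 (by linarith)
  · push Not at h
    obtain ⟨k₀⟩ := ‹Nonempty K›
    refine ⟨k₀, k₀, fun u k hu => Or.inl ?_⟩
    rw [← hpos] at hu ⊢
    rwa [h u k₀ k]

/-- Half-planes not inside `w` whose hull vertices are inside `w` miss a fixed point and contain
one of two fixed points. -/
theorem two_neighbours [Finite E] [FiniteDimensional ℝ W] (hW : Module.finrank ℝ W ≤ 3)
    (hb : ∀ e, f e b < 0) (w : W) {I : Type} [Nonempty I] (u : I → W)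
    (h1 : ∀ i e, Vert f e → 0 < f e (u i) → 0 < f e w)
    (h2 : ∀ i, ∃ g, 0 < f g (u i) ∧ ¬ 0 < f g w) :
    ∃ v' v₁ v₂, ∀ i, ¬ 0 < f v' (u i) ∧ (0 < f v₁ (u i) ∨ 0 < f v₂ (u i)) := by
  classical
  let K : Type := {av : E × E // (Vert f av.1 ∧ ¬ 0 < f av.1 w) ∧ 0 < f av.2 w}
  let m : K → W →ₗ[ℝ] ℝ := fun k => f k.1.2 w • f k.1.1 - f k.1.1 w • f k.1.2
  have hm : ∀ k t, m k t = f k.1.2 w * f k.1.1 t - f k.1.1 w * f k.1.2 t := fun k t => by
    simp [m]
  have hex : ∀ i, ∃ k, 0 < m k (u i) := by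
    intro i
    obtain ⟨g, hg1, hg2⟩ := h2 i
    obtain ⟨e₀, he₀, he₀'⟩ := exists_vert hb hg1
    obtain ⟨v, hv, hmax⟩ := Set.exists_max_image {e | Vert f e ∧ 0 < f e w}
      (fun e => f e (u i) / f e w) (Set.toFinite _) ⟨e₀, he₀, h1 i e₀ he₀ he₀'⟩
    set l := f v (u i) / f v w with hl
    have hl0 : 0 < l := (div_pos he₀' (h1 i e₀ he₀ he₀')).trans_le (hmax e₀ ⟨he₀, h1 i e₀ he₀ he₀'⟩)
    have hval : ∀ e, f e (u i - l • w) = f e (u i) - l * f e w := fun e => by
      rw [map_sub, map_smul, smul_eq_mul]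
    obtain ⟨a, ha, ha'⟩ := exists_vert hb (g := g) (t := u i - l • w) (by
      rw [hval]
      have := mul_nonpos_of_nonneg_of_nonpos hl0.le (not_lt.1 hg2)
      linarith)
    rw [hval] at ha'
    have haw : ¬ 0 < f a w := fun h => by
      have := hmax a ⟨ha, h⟩
      rw [div_le_iff₀ h] at this
      linarith
    refine ⟨⟨(a, v), ⟨ha, haw⟩, hv.2⟩, ?_⟩
    rw [hm]
    have h3 := mul_pos hv.2 ha'
    have h4 : l * f v w = f v (u i) := by rw [hl]; exact div_mul_cancel₀ _ hv.2.ne'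
    simp only
    rw [← h4]
    linarith
  obtain ⟨i₀⟩ := ‹Nonempty I›
  obtain ⟨k₀, -⟩ := hex i₀
  have : Nonempty K := ⟨k₀⟩
  obtain ⟨k₁, k₂, hk⟩ := two_extremes (b := b) hW m (w := w)
    (fun h => k₀.2.2.ne' ((congrArg (f k₀.1.2) h).trans (map_zero _)))
    (fun k => by rw [hm]; ring)
    (fun k => by
      rw [hm]
      have := mul_neg_of_pos_of_neg k.2.2 (hb k.1.1)
      have := mul_nonneg_of_nonpos_of_nonpos (not_lt.1 k.2.1.2) (hb k.1.2).le
      linarith)
  have hfin : ∀ i k, 0 < m k (u i) → 0 < f k.1.2 (u i) := fun i k h => by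
    rw [hm] at h
    by_contra hcon
    have h3 : ¬ 0 < f k.1.1 (u i) := fun h3 => k.2.1.2 (h1 i _ k.2.1.1 h3)
    have := mul_nonpos_of_nonneg_of_nonpos k.2.2.le (not_lt.1 h3)
    have := mul_nonneg_of_nonpos_of_nonpos (not_lt.1 k.2.1.2) (not_lt.1 hcon)
    linarith
  refine ⟨k₀.1.1, k₁.1.2, k₂.1.2, fun i => ⟨fun h => k₀.2.1.2 (h1 i _ k₀.2.1.1 h), ?_⟩⟩
  obtain ⟨k, hk'⟩ := hex i
  exact (hk _ k hk').imp (hfin i k₁) (hfin i k₂)

/-- Three half-planes with a common point and a common non-point cannot each escape from the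
join of the other two. -/
theorem three_planes [FiniteDimensional ℝ W] (hW : Module.finrank ℝ W ≤ 3)
    (hb : ∀ e, f e b < 0) (u w : Fin 3 → W) (g : Fin 3 → E) (v v' : E)
    (hv : ∀ i, 0 < f v (u i)) (hv' : ∀ i, ¬ 0 < f v' (u i))
    (hg : ∀ i, 0 < f (g i) (u i)) (hgw : ∀ i, ¬ 0 < f (g i) (w i))
    (hw : ∀ i j, i ≠ j → ∀ e, 0 < f e (u j) → 0 < f e (w i)) : False := by
  have hgu : ∀ i j, i ≠ j → f (g i) (u j) ≤ 0 := fun i j h =>
    not_lt.1 fun h1 => hgw i (hw i j h _ h1)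
  have hgw' : ∀ i j, i ≠ j → 0 < f (g j) (w i) := fun i j h => hw i j h _ (hg j)
  have hvw : ∀ i, 0 < f v (w i) := fun i => hw i (i + 1) (by simp) _ (hv _)
  obtain ⟨α, β₀, β₁, β₂, hα, hne, hc⟩ := dep4 (V := Module.Dual ℝ W)
    (by rwa [Subspace.dual_finrank_eq]) (f v) (f (g 0)) (f (g 1)) (f (g 2))
  let β : Fin 3 → ℝ := ![β₀, β₁, β₂]
  have hev : ∀ t, α * f v t + ∑ i, β i * f (g i) t = 0 := fun t => by
    have := LinearMap.congr_fun hc t
    simp only [LinearMap.add_apply, LinearMap.smul_apply, smul_eq_mul, LinearMap.zero_apply] at this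
    rw [Fin.sum_univ_three]
    simp only [β, Matrix.cons_val_zero, Matrix.cons_val_one, Matrix.cons_val]
    linarith
  -- a sum of nonnegative terms vanishes termwise
  have hzero : ∀ t, 0 ≤ α * f v t → (∀ i, 0 ≤ β i * f (g i) t) →
      α * f v t = 0 ∧ ∀ i, β i * f (g i) t = 0 := fun t h1 h2 => by
    have h3 := Finset.sum_nonneg fun i (_ : i ∈ Finset.univ) => h2 i
    have h4 := hev t
    exact ⟨by linarith, fun i => (Finset.sum_eq_zero_iff_of_nonneg fun i _ => h2 i).1
      (by linarith) i (Finset.mem_univ _)⟩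
  have hnb : ∀ e, 0 < f e (-b) := fun e => by rw [map_neg]; linarith [hb e]
  have hall : (∀ i, 0 ≤ β i) → False := fun h => by
    obtain ⟨h1, h2⟩ := hzero (-b) (mul_nonneg hα (hnb _).le) fun i => mul_nonneg (h i) (hnb _).le
    have h3 : ∀ i, β i = 0 := fun i => (mul_eq_zero.1 (h2 i)).resolve_right (hnb _).ne'
    rcases hne with h4 | h4 | h4 | h4
    · exact h4 ((mul_eq_zero.1 h1).resolve_right (hnb _).ne')
    · exact h4 (h3 0)
    · exact h4 (h3 1)
    · exact h4 (h3 2)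
  have hone : ∀ i, β i ≤ 0 → (∀ j, i ≠ j → 0 ≤ β j) → False := fun i hi h => by
    obtain ⟨h1, h2⟩ := hzero (w i) (mul_nonneg hα (hvw _).le) fun j => by
      by_cases hj : i = j
      · subst hj; exact mul_nonneg_of_nonpos_of_nonpos hi (not_lt.1 (hgw i))
      · exact mul_nonneg (h j hj) (hgw' i j hj).le
    have h3 : α = 0 := (mul_eq_zero.1 h1).resolve_right (hvw _).ne'
    obtain ⟨-, h4⟩ := hzero b (by rw [h3, zero_mul]) fun j => by
      by_cases hj : i = j
      · subst hj; exact mul_nonneg_of_nonpos_of_nonpos hi (hb _).le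
      · rw [(mul_eq_zero.1 (h2 j)).resolve_right (hgw' i j hj).ne', zero_mul]
    exact hall fun j => ((mul_eq_zero.1 (h4 j)).resolve_right (hb _).ne).ge
  have htwo : ∀ i, 0 ≤ β i → (∀ j, j ≠ i → β j ≤ 0) → False := fun i hi h => by
    obtain ⟨h1, h2⟩ := hzero (u i) (mul_nonneg hα (hv _).le) fun j => by
      by_cases hj : j = i
      · subst hj; exact mul_nonneg hi (hg _).le
      · exact mul_nonneg_of_nonpos_of_nonpos (h j hj) (hgu j i hj)
    have h3 : α = 0 := (mul_eq_zero.1 h1).resolve_right (hv _).ne'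
    obtain ⟨-, h4⟩ := hzero b (by rw [h3, zero_mul]) fun j => by
      by_cases hj : j = i
      · subst hj; rw [(mul_eq_zero.1 (h2 j)).resolve_right (hg _).ne', zero_mul]
      · exact mul_nonneg_of_nonpos_of_nonpos (h j hj) (hb _).le
    exact hall fun j => ((mul_eq_zero.1 (h4 j)).resolve_right (hb _).ne).ge
  have hthree : (∀ i, β i < 0) → False := fun h => by
    have hneg : ∀ t, (∀ i, f (g i) t ≤ 0) → f v t ≤ 0 := fun t ht => by
      by_contra hcon
      obtain ⟨h1, -⟩ := hzero t (mul_nonneg hα (not_le.1 hcon).le) fun j =>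
        mul_nonneg_of_nonpos_of_nonpos (h j).le (ht j)
      have h3 : α = 0 := (mul_eq_zero.1 h1).resolve_right (not_le.1 hcon).ne'
      obtain ⟨-, h4⟩ := hzero b (by rw [h3, zero_mul]) fun j =>
        mul_nonneg_of_nonpos_of_nonpos (h j).le (hb _).le
      exact (h 0).ne ((mul_eq_zero.1 (h4 0)).resolve_right (hb _).ne)
    obtain ⟨μ, μ₀, μ₁, μ₂, hμ, hne', hc'⟩ := dep4 hW b (u 0) (u 1) (u 2)
    let ν : Fin 3 → ℝ := ![μ₀, μ₁, μ₂]
    have hev' : ∀ e, μ * f e b + ∑ j, ν j * f e (u j) = 0 := fun e => by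
      have := congrArg (f e) hc'
      simp only [map_add, map_smul, smul_eq_mul, map_zero] at this
      rw [Fin.sum_univ_three]
      simp only [ν, Matrix.cons_val_zero, Matrix.cons_val_one, Matrix.cons_val]
      linarith
    have ht : ∀ e, f e (∑ j, max (-ν j) 0 • u j) = ∑ j, max (-ν j) 0 * f e (u j) := fun e => by
      rw [map_sum]
      exact Finset.sum_congr rfl fun k _ => by rw [map_smul, smul_eq_mul]
    have ht' : ∀ e, f e (∑ j, max (-ν j) 0 • u j) = μ * f e b + ∑ j, max (ν j) 0 * f e (u j) := by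
      intro e
      have h1 : ∑ j, max (ν j) 0 * f e (u j) =
          ∑ j, max (-ν j) 0 * f e (u j) + ∑ j, ν j * f e (u j) := by
        rw [← Finset.sum_add_distrib]
        refine Finset.sum_congr rfl fun j _ => ?_
        rcases le_total (ν j) 0 with h1 | h1
        · rw [max_eq_right h1, max_eq_left (by linarith)]; ring
        · rw [max_eq_left h1, max_eq_right (by linarith)]; ring
      rw [ht, h1]
      linarith [hev' e]
    have h1 := hneg (∑ j, max (-ν j) 0 • u j) fun i => by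
      rcases le_total (ν i) 0 with h1 | h1
      · rw [ht']
        refine add_nonpos (mul_nonpos_of_nonneg_of_nonpos hμ (hb _).le)
          (Finset.sum_nonpos fun j _ => ?_)
        by_cases hj : i = j
        · subst hj; rw [max_eq_right h1, zero_mul]
        · exact mul_nonpos_of_nonneg_of_nonpos (le_max_right _ _) (hgu i j hj)
      · rw [ht]
        refine Finset.sum_nonpos fun j _ => ?_
        by_cases hj : i = j
        · subst hj; rw [max_eq_right (by linarith), zero_mul]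
        · exact mul_nonpos_of_nonneg_of_nonpos (le_max_right _ _) (hgu i j hj)
    rw [ht] at h1
    have h2 : ∀ j, 0 ≤ ν j := fun j => by
      have h3 := (Finset.sum_eq_zero_iff_of_nonneg fun j (_ : j ∈ Finset.univ) =>
        mul_nonneg (le_max_right (-ν j) 0) (hv j).le).1 (le_antisymm h1
          (Finset.sum_nonneg fun j _ => mul_nonneg (le_max_right (-ν j) 0) (hv j).le)) j
          (Finset.mem_univ _)
      have h4 := (mul_eq_zero.1 h3).resolve_right (hv j).ne'
      linarith [le_max_left (-ν j) 0]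
    have h3 : μ = 0 := by
      have h4 := hev' v'
      have h5 : ∑ j, ν j * f v' (u j) ≤ 0 := Finset.sum_nonpos fun j _ =>
        mul_nonpos_of_nonneg_of_nonpos (h2 j) (not_lt.1 (hv' j))
      have h6 := mul_nonpos_of_nonneg_of_nonpos hμ (hb v').le
      exact (mul_eq_zero.1 (by linarith : μ * f v' b = 0)).resolve_right (hb _).ne
    have h4 : ∀ j, ν j = 0 := fun j => by
      have h5 := hev' v
      rw [h3, zero_mul, zero_add] at h5
      exact (mul_eq_zero.1 ((Finset.sum_eq_zero_iff_of_nonneg fun j _ =>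
        mul_nonneg (h2 j) (hv j).le).1 h5 j (Finset.mem_univ _))).resolve_right (hv j).ne'
    rcases hne' with h5 | h5 | h5 | h5
    · exact h5 h3
    · exact h5 (h4 0)
    · exact h5 (h4 1)
    · exact h5 (h4 2)
  by_cases hneg : ∀ i, β i < 0
  · exact hthree hneg
  push Not at hneg
  obtain ⟨i, hi⟩ := hneg
  by_cases h2 : ∀ j, j ≠ i → β j ≤ 0
  · exact htwo i hi h2
  push Not at h2
  obtain ⟨j, hj, hj'⟩ := h2
  obtain ⟨k, hk⟩ := (by decide : ∀ i j : Fin 3, j ≠ i → ∃ k : Fin 3, ∀ l, k ≠ l → l = i ∨ l = j)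
    i j hj
  have hk' : ∀ l, k ≠ l → 0 ≤ β l := fun l hl => by
    rcases hk l hl with rfl | rfl
    · exact hi
    · exact hj'.le
  rcases le_total (β k) 0 with h3 | h3
  · exact hone k h3 hk'
  · exact hall fun l => by
      by_cases hl : k = l
      · exact hl ▸ h3
      · exact hk' l hl

end linear

end Pool.Agent.MP_88c4e5_co.H76
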