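import Pool.Agent.MP_88c4e5_co.H76.Counter

namespace Pool.Agent.MP_88c4e5_co.H76

open Set H68

theorem list_tri {α : Type} (l l' : List α) : (∃ m, l' = l ++ m) ∨ (∃ m, l = l' ++ m) ∨
    ∃ t c c' m m', c ≠ c' ∧ l = t ++ c :: m ∧ l' = t ++ c' :: m' := by
  induction l generalizing l' with
  | nil => exact Or.inl ⟨l', rfl⟩
  | cons a l ih =>
    cases l' with
    | nil => exact Or.inr (Or.inl ⟨_, rfl⟩)
    | cons a' l' =>
      by_cases h : a = a'
      · subst h
        rcases ih l' with ⟨m, rfl⟩ | ⟨m, rfl⟩ | ⟨t, c, c', m, m', h1, rfl, rfl⟩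
        · exact Or.inl ⟨m, rfl⟩
        · exact Or.inr (Or.inl ⟨m, rfl⟩)
        · exact Or.inr (Or.inr ⟨a :: t, c, c', m, m', h1, rfl, rfl⟩)
      · exact Or.inr (Or.inr ⟨[], a, a', l, l', h, rfl, rfl⟩)

/-- parity of the length -/
def colr : List Term → Bool
  | [] => false
  | _ :: l => !colr l

theorem list_tri' (l l' : List Term) (hc : colr l = colr l') (hne : l ≠ l') :
    (∃ m c s, l' = m ++ c :: s :: l) ∨ (∃ m c s, l = m ++ c :: s :: l') ∨
    ∃ t c c' m m', c ≠ c' ∧ l = m ++ c :: t ∧ l' = m' ++ c' :: t := by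
  have key : ∀ (l l' m : List Term), colr l = colr l' → l ≠ l' → l'.reverse = l.reverse ++ m →
      ∃ m c s, l' = m ++ c :: s :: l := by
    intro l l' m hc hne h
    have h1 : l' = m.reverse ++ l := by simpa using congrArg List.reverse h
    match m, h1 with
    | [], h1 => exact absurd h1.symm hne
    | [s], h1 => simp [h1, colr] at hc
    | s :: c :: m, h1 => exact ⟨m.reverse, c, s, by simpa using h1⟩
  rcases list_tri l.reverse l'.reverse with ⟨m, h⟩ | ⟨m, h⟩ | ⟨t, c, c', m, m', h1, h2, h3⟩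
  · exact Or.inl (key l l' m hc hne h)
  · exact Or.inr (Or.inl (key l' l m hc.symm hne.symm h))
  · exact Or.inr (Or.inr ⟨t.reverse, c, c', m.reverse, m'.reverse, h1,
      by simpa using congrArg List.reverse h2, by simpa using congrArg List.reverse h3⟩)

/-- unit complex number of slope `n` -/
noncomputable def turn (n : ℕ) : ℂ := (⟨1, n⟩ : ℂ) / (‖(⟨1, n⟩ : ℂ)‖ : ℝ)

theorem norm_one_pos (n : ℕ) : 0 < ‖(⟨1, n⟩ : ℂ)‖ :=
  norm_pos_iff.2 fun h => by simpa using congrArg Complex.re h

theorem norm_turn (n : ℕ) : ‖turn n‖ = 1 := by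
  rw [turn, norm_div, Complex.norm_real, norm_norm, div_self (norm_one_pos n).ne']

theorem turn_re (n : ℕ) : 0 < (turn n).re := by
  rw [turn, Complex.div_ofReal_re]
  exact div_pos one_pos (norm_one_pos n)

theorem turn_injective : Function.Injective turn := by
  have h : ∀ n : ℕ, (turn n).im = n * (turn n).re := fun n => by
    rw [turn, Complex.div_ofReal_re, Complex.div_ofReal_im]; ring
  intro n m hnm
  have h1 := h n
  rw [hnm, h m] at h1
  exact_mod_cast (mul_right_cancel₀ (turn_re m).ne' h1).symm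

/-- direction from the parent centre -/
noncomputable def dir : List Term → ℂ
  | [] => 1
  | c :: l => dir l * turn (code c)

theorem norm_dir (l : List Term) : ‖dir l‖ = 1 := by
  induction l with
  | nil => simp [dir]
  | cons c l ih => rw [dir, norm_mul, ih, norm_turn, one_mul]

/-- centre of the disc of a list -/
noncomputable def ctr (ε : ℝ) : List Term → ℂ
  | [] => 0
  | c :: l => ctr ε l + (ε ^ l.length : ℝ) * dir (c :: l)

theorem norm_ctr {ε : ℝ} (h0 : 0 < ε) (c : Term) (l : List Term) :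
    ‖ctr ε (c :: l) - ctr ε l‖ = ε ^ l.length := by
  rw [ctr, add_sub_cancel_left, norm_mul, norm_dir, mul_one, Complex.norm_real,
    Real.norm_of_nonneg (by positivity)]

theorem ctr_ball {ε : ℝ} (h0 : 0 < ε) (h1 : 2 * ε ≤ 1) (m l : List Term) :
    ‖ctr ε (m ++ l) - ctr ε l‖ + 2 * ε ^ (m ++ l).length ≤ 2 * ε ^ l.length := by
  induction m with
  | nil => simp
  | cons c m ih =>
    have h2 := norm_sub_le_norm_sub_add_norm_sub (ctr ε (c :: (m ++ l))) (ctr ε (m ++ l)) (ctr ε l)
    rw [norm_ctr h0] at h2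
    have h3 := mul_le_mul_of_nonneg_left h1 (pow_pos h0 (m ++ l).length).le
    rw [List.cons_append, List.length_cons, pow_succ]
    linarith

theorem ctr_sep {ε : ℝ} (h0 : 0 < ε) (T : ℕ)
    (h1 : ∀ n ≤ T, 2 * ε < (turn n).re) (h2 : ∀ n ≤ T, ∀ m ≤ T, n ≠ m → 4 * ε < ‖turn n - turn m‖)
    (l l' : List Term) (hl : ∀ a ∈ l, code a ≤ T) (hl' : ∀ a ∈ l', code a ≤ T)
    (hc : colr l = colr l') (hne : l ≠ l') :
    ε ^ l.length + ε ^ l'.length < ‖ctr ε l - ctr ε l'‖ := by
  have hε : 2 * ε ≤ 1 :=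
    (h1 0 (Nat.zero_le _)).le.trans ((Complex.re_le_norm _).trans (norm_turn 0).le)
  have key : ∀ (l m : List Term) c s, code c ≤ T →
      ε ^ l.length + ε ^ (m ++ c :: s :: l).length < ‖ctr ε l - ctr ε (m ++ c :: s :: l)‖ := by
    intro l m c s hc
    have h3 := ctr_ball h0 hε m (c :: s :: l)
    have h4 : ctr ε (c :: s :: l) - ctr ε l =
        (ε ^ l.length : ℝ) * dir (s :: l) * (1 + ε * turn (code c)) := by
      simp only [ctr, List.length_cons, pow_succ]
      rw [dir.eq_2 c (s :: l)]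
      push_cast
      ring
    have h5 : 1 + ε * (turn (code c)).re ≤ ‖1 + ε * turn (code c)‖ := by
      simpa using Complex.re_le_norm (1 + ε * turn (code c))
    have h6 : ‖ctr ε (c :: s :: l) - ctr ε l‖ = ε ^ l.length * ‖1 + ε * turn (code c)‖ := by
      rw [h4, norm_mul, norm_mul, norm_dir, mul_one, Complex.norm_real,
        Real.norm_of_nonneg (by positivity)]
    have h7 := norm_sub_le_norm_sub_add_norm_sub (ctr ε (c :: s :: l)) (ctr ε (m ++ c :: s :: l))
      (ctr ε l)
    rw [norm_sub_rev (ctr ε (c :: s :: l)) (ctr ε (m ++ c :: s :: l)),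
      norm_sub_rev (ctr ε (m ++ c :: s :: l)) (ctr ε l), h6] at h7
    have h8 := mul_le_mul_of_nonneg_left h5 (pow_pos h0 l.length).le
    have h9 := mul_lt_mul_of_pos_left (h1 _ hc) (mul_pos (pow_pos h0 l.length) h0)
    have h10 := pow_pos h0 (m ++ c :: s :: l).length
    simp only [List.length_cons (a := c), List.length_cons (a := s), pow_succ] at h3
    linarith
  rcases list_tri' l l' hc hne with ⟨m, c, s, rfl⟩ | ⟨m, c, s, rfl⟩ |
    ⟨t, c, c', m, m', h3, rfl, rfl⟩
  · exact key l m c s (hl' c (by simp))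
  · rw [add_comm, norm_sub_rev]; exact key l' m c s (hl c (by simp))
  · have h4 := ctr_ball h0 hε m (c :: t)
    have h5 := ctr_ball h0 hε m' (c' :: t)
    have h6 : ‖ctr ε (c :: t) - ctr ε (c' :: t)‖ =
        ε ^ t.length * ‖turn (code c) - turn (code c')‖ := by
      rw [show ctr ε (c :: t) - ctr ε (c' :: t) =
        (ε ^ t.length : ℝ) * dir t * (turn (code c) - turn (code c')) by
          simp only [ctr, dir]; ring, norm_mul, norm_mul, norm_dir, mul_one, Complex.norm_real,
        Real.norm_of_nonneg (by positivity)]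
    have h7 := mul_lt_mul_of_pos_left (h2 _ (hl c (by simp)) _ (hl' c' (by simp))
      fun h => h3 (code_injective h)) (pow_pos h0 t.length)
    have h8 := norm_sub_le_norm_sub_add_norm_sub (ctr ε (c :: t)) (ctr ε (m ++ c :: t))
      (ctr ε (c' :: t))
    have h9 := norm_sub_le_norm_sub_add_norm_sub (ctr ε (m ++ c :: t)) (ctr ε (m' ++ c' :: t))
      (ctr ε (c' :: t))
    rw [norm_sub_rev (ctr ε (c :: t)) (ctr ε (m ++ c :: t)), h6] at h8
    have h10 := pow_pos h0 (m ++ c :: t).length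
    have h11 := pow_pos h0 (m' ++ c' :: t).length
    simp only [List.length_cons (a := c), List.length_cons (a := c'), pow_succ] at h4 h5
    linarith

/-- bound on the code of a grandchild -/
def bnd (T : ℕ) : List Term → ℕ
  | [] => T + 1
  | t :: _ => code t

/-- the unrolled tree of Whitman steps -/
inductive Ok (R : Bool → Term → Term → Prop) (p : Term) (T : ℕ) : List Term → Prop
  | root : Ok R p T [p]
  | step (c s : Term) (l : List Term) : Ok R p T (s :: l) → code c < bnd T l →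
      R (colr (c :: s :: l)) c s → Ok R p T (c :: s :: l)

theorem Ok.bound {R : Bool → Term → Term → Prop} {p : Term} {T : ℕ} (hp : code p ≤ T)
    {l : List Term} (h : Ok R p T l) :
    (∀ a ∈ l, code a ≤ T) ∧ bnd T l + bnd T l.tail + l.length ≤ 2 * T + 2 := by
  induction h with
  | root => simp [bnd]; omega
  | step c s l h1 h2 h3 ih =>
    have h4 : bnd T l ≤ T + 1 := by
      cases l with
      | nil => exact le_rfl
      | cons t l => exact (ih.1 t (by simp)).trans (Nat.le_succ _)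
    refine ⟨fun a ha => ?_, ?_⟩
    · rcases List.mem_cons.1 ha with rfl | ha
      · omega
      · exact ih.1 a ha
    · have := ih.2
      simp only [bnd, List.tail_cons, List.length_cons] at this ⊢
      change code s + bnd T l + _ ≤ _ at this
      omega

theorem Ok.finite {R : Bool → Term → Term → Prop} {p : Term} {T : ℕ} (hp : code p ≤ T) :
    Finite {l // Ok R p T l} := by
  have := finite_code_le T
  refine ((List.finite_length_le {a : Term // code a ≤ T} (2 * T + 2)).image
    (List.map Subtype.val)).subset (t := {l | Ok R p T l}) fun l hl => ?_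
  have h := Ok.bound hp hl
  exact ⟨l.attachWith _ h.1, by simp only [mem_ofPred_eq, List.length_attachWith]; omega, by simp⟩

theorem Ok.inv {R : Bool → Term → Term → Prop} {p : Term} {T : ℕ} {c s : Term} {l : List Term}
    (h : Ok R p T (c :: s :: l)) :
    Ok R p T (s :: l) ∧ code c < bnd T l ∧ R (colr (c :: s :: l)) c s := by
  cases h with
  | step _ _ _ h1 h2 h3 => exact ⟨h1, h2, h3⟩

theorem exists_counter4 (d : ℕ) (hd : 4 ≤ d) {L : Type*} [Lattice L] (v : ℕ → L) (p q : Term)
    (hpq : ¬ p.eval v ≤ q.eval v) :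
    ∃ (A : Arrangement d) (B : A.Region) (v' : ℕ → DM A B), ¬ p.eval v' ≤ q.eval v' := by
  classical
  set T := max (code p) (code q) with hT
  let R : Bool → Term → Term → Prop := fun κ a t =>
    if κ = true then ¬ a.eval v ≤ t.eval v else ¬ t.eval v ≤ a.eval v
  let C : Type := {l // Ok R p T l}
  let N : Type := {x : Term × Term × List Term // Ok R p T (x.1 :: x.2.1 :: x.2.2)}
  have hC : Finite C := Ok.finite (le_max_left _ _)
  have hN : Finite N := Finite.of_injective (fun x : N => (⟨_, x.2⟩ : C)) fun x y h => by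
    simp only [Subtype.mk.injEq, List.cons.injEq] at h
    exact Subtype.ext (Prod.ext h.1 (Prod.ext h.2.1 h.2.2))
  let cl : N → Bool → C := fun x κ =>
    if colr (x.1.1 :: x.1.2.1 :: x.1.2.2) = κ then ⟨_, x.2⟩ else ⟨_, x.2.inv.1⟩
  have hcl1 : ∀ (x : N) κ, colr (x.1.1 :: x.1.2.1 :: x.1.2.2) = κ →
      (cl x κ).1 = x.1.1 :: x.1.2.1 :: x.1.2.2 := fun x κ h => by simp only [cl, if_pos h]
  have hcl2 : ∀ (x : N) κ, colr (x.1.1 :: x.1.2.1 :: x.1.2.2) ≠ κ →
      (cl x κ).1 = x.1.2.1 :: x.1.2.2 := fun x κ h => by simp only [cl, if_neg h]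
  let lab : C → Term := fun c => c.1.headD p
  have hrel : ∀ (x : N) κ, R κ (lab (cl x κ)) (lab (cl x !κ)) := by
    intro x κ
    have h1 := x.2.inv.2.2
    by_cases h : colr (x.1.1 :: x.1.2.1 :: x.1.2.2) = κ
    · simp only [lab, hcl1 x κ h, hcl2 x (!κ) (by simp [h]), List.headD_cons]
      rwa [h] at h1
    · have h' : colr (x.1.1 :: x.1.2.1 :: x.1.2.2) = !κ := Bool.eq_not.2 h
      simp only [lab, hcl2 x κ h, hcl1 x (!κ) h', List.headD_cons]
      rw [h'] at h1
      cases κ <;> simpa [R] using h1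
  have hchild : ∀ (x : N) κ a, code a < code (lab (cl x κ)) → R κ a (lab (cl x !κ)) →
      ∃ y, cl y (!κ) = cl x (!κ) ∧ lab (cl y κ) = a := by
    intro x κ a h1 h2
    by_cases h : colr (x.1.1 :: x.1.2.1 :: x.1.2.2) = κ
    · simp only [lab, hcl1 x κ h, hcl2 x (!κ) (by simp [h]), List.headD_cons] at h1 h2
      let y : N := ⟨(a, x.1.2.1, x.1.2.2), .step _ _ _ x.2.inv.1 (h1.trans x.2.inv.2.1) (by
        rwa [← h] at h2)⟩
      refine ⟨y, Subtype.ext ?_, ?_⟩
      · rw [hcl2 x (!κ) (by simp [h]), hcl2 y (!κ) (by rw [← h]; simp [y, colr])]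
      · simp only [lab]; rw [hcl1 y κ h]; rfl
    · have h' : colr (x.1.1 :: x.1.2.1 :: x.1.2.2) = !κ := Bool.eq_not.2 h
      simp only [lab, hcl2 x κ h, hcl1 x (!κ) h', List.headD_cons] at h1 h2
      have h3 : colr (a :: x.1.1 :: x.1.2.1 :: x.1.2.2) = κ := by rw [colr, h', Bool.not_not]
      let y : N := ⟨(a, x.1.1, x.1.2.1 :: x.1.2.2), .step _ _ _ x.2 h1 (by rwa [h3])⟩
      refine ⟨y, Subtype.ext ?_, ?_⟩
      · rw [hcl1 x (!κ) h', hcl2 y (!κ) (by simp [y, h3])]
      · simp only [lab]; rw [hcl1 y κ h3]; rfl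
  obtain ⟨ε, hε0, hε⟩ := exists_eps (E := Fin (T + 1) × Option (Fin (T + 1)))
    (fun i => i.2.elim (turn i.1).re fun m => ‖turn i.1 - turn m‖) fun _ => -4
  have hε1 : ∀ n ≤ T, 2 * ε < (turn n).re := fun n hn => by
    have := hε (⟨n, Nat.lt_succ_of_le hn⟩, none) (turn_re n)
    simp only [Option.elim] at this
    linarith
  have hε2 : ∀ n ≤ T, ∀ m ≤ T, n ≠ m → 4 * ε < ‖turn n - turn m‖ := fun n hn m hm h => by
    have := hε (⟨n, Nat.lt_succ_of_le hn⟩, some ⟨m, Nat.lt_succ_of_le hm⟩)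
      (norm_pos_iff.2 (sub_ne_zero.2 (turn_injective.ne h)))
    simp only [Option.elim] at this
    linarith
  have hε3 : 2 * ε ≤ 1 :=
    (hε1 0 (Nat.zero_le _)).le.trans ((Complex.re_le_norm _).trans (norm_turn 0).le)
  let τ : ℝ := 1 - ε ^ 2 / 2
  have hτ0 : 0 < τ := by simp only [τ]; nlinarith
  have hτ1 : τ < 1 := by simp only [τ]; nlinarith
  let x₀ : N := ⟨(q, p, []), .step _ _ _ .root (Nat.lt_succ_of_le (le_max_right _ _)) (by
    simpa [R, colr] using hpq)⟩
  obtain ⟨A, B, v', h⟩ := counter_of_discs d hd v (fun c : C => colr c.1) cl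
    (fun x κ => by
      by_cases h : colr (x.1.1 :: x.1.2.1 :: x.1.2.2) = κ
      · rw [hcl1 x κ h, h]
      · rw [hcl2 x κ h]
        rw [colr] at h
        simpa using h)
    (fun c => ctr ε c.1) (fun c => ε ^ c.1.length) (fun c => pow_pos hε0 _)
    (fun c c' h1 h2 => ctr_sep hε0 T hε1 hε2 _ _ (c.2.bound (le_max_left _ _)).1
      (c'.2.bound (le_max_left _ _)).1 h1 fun h3 => h2 (Subtype.ext h3))
    (fun x => ctr ε (x.1.2.1 :: x.1.2.2) +
      τ * (ctr ε (x.1.1 :: x.1.2.1 :: x.1.2.2) - ctr ε (x.1.2.1 :: x.1.2.2)))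
    (fun x => (ε ^ (x.1.2.1 :: x.1.2.2).length) ^ 2 * (1 - τ ^ 2))
    (fun x => mul_pos (by positivity) (by nlinarith))
    (fun x κ => by
      by_cases h : colr (x.1.1 :: x.1.2.1 :: x.1.2.2) = κ
      · rw [hcl1 x κ h, show ∀ a b : ℂ, a + τ * (b - a) - b = ((τ - 1 : ℝ) : ℂ) * (b - a) from
          fun a b => by push_cast; ring, norm_mul, norm_ctr hε0, Complex.norm_real, mul_pow,
          Real.norm_eq_abs, sq_abs, List.length_cons (a := x.1.1), pow_succ ε]
        simp only [τ]
        ring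
      · rw [hcl2 x κ h, add_sub_cancel_left, norm_mul, norm_ctr hε0, Complex.norm_real, mul_pow,
          Real.norm_eq_abs, sq_abs]
        ring)
    lab (fun x => by simpa [R] using hrel x true)
    (fun x a h1 h2 => by simpa using hchild x true a h1 (by simpa [R] using h2))
    (fun x a h1 h2 => by simpa using hchild x false a h1 (by simpa [R] using h2)) x₀
  refine ⟨A, B, v', ?_⟩
  simp only [lab, hcl1 x₀ false rfl, hcl2 x₀ true (by simp [x₀, colr]), List.headD_cons] at h
  exact h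

theorem holds_of_holds_DM4 (d : ℕ) (hd : 4 ≤ d) (p q : Term)
    (H : ∀ (A : Arrangement d) (B : A.Region), Holds (DM A B) p q)
    (L : Type*) [Lattice L] : Holds L p q := by
  intro v
  by_contra hne
  rcases not_and_or.1 (fun h : _ ∧ _ => hne (le_antisymm h.1 h.2)) with h | h
  · obtain ⟨A, B, v', h'⟩ := exists_counter4 d hd v p q h
    exact h' (H A B v').le
  · obtain ⟨A, B, v', h'⟩ := exists_counter4 d hd v q p h
    exact h' (H A B v').ge

end Pool.Agent.MP_88c4e5_co.H76
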